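import Mathlib

/-!
# Nested maxima of independent uniform variables
-/

set_option autoImplicit false

open MeasureTheory
open scoped ENNReal

namespace Q295.Split

noncomputable section

/-- the uniform law on the unit interval -/
def unif : Measure ℝ := volume.restrict (Set.Icc (0 : ℝ) 1)

instance : IsProbabilityMeasure unif := by
  constructor
  unfold unif
  rw [Measure.restrict_apply_univ, Real.volume_Icc]
  norm_num

variable {ι : Type*} [Fintype ι] [DecidableEq ι]

theorem lint_update {μ : ι → Measure ℝ} [∀ i, IsProbabilityMeasure (μ i)]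
    {f : (ι → ℝ) → ℝ≥0∞} (hf : Measurable f) (a : ι) :
    ∫⁻ w, f w ∂Measure.pi μ = ∫⁻ s, ∫⁻ w, f (Function.update w a s) ∂Measure.pi μ ∂μ a := by
  have x : ι → ℝ := fun _ => 0
  rw [lintegral_eq_lmarginal_univ x, lmarginal_erase _ hf (Finset.mem_univ a)]
  refine lintegral_congr fun s => ?_
  rw [lmarginal_update_of_notMem hf (Finset.notMem_erase a _)]
  have hg : Measurable (f ∘ fun y : ι → ℝ => Function.update y a s) :=
    hf.comp measurable_update_left
  have h2 := lmarginal_erase (μ := μ) _ hg (Finset.mem_univ a) x
  have h3 : ∀ s' : ℝ, (∫⋯∫⁻_(Finset.univ.erase a), (f ∘ fun y : ι → ℝ => Function.update y a s) ∂μ)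
      (Function.update x a s') =
      (∫⋯∫⁻_(Finset.univ.erase a), (f ∘ fun y : ι → ℝ => Function.update y a s) ∂μ) x := by
    intro s'
    rw [lmarginal_update_of_notMem hg (Finset.notMem_erase a _)]
    congr 1
    funext y
    simp
  simp_rw [h3] at h2
  rw [lintegral_const, measure_univ, mul_one] at h2
  rw [← h2]
  simp

/-- `p.1` is the strict argmax of `insert p.1 p.2`, for all `p` in the list -/
def chain : List (ι × Finset ι) → Set (ι → ℝ)
  | [] => Set.univ
  | (p :: l) => {w | ∀ b ∈ p.2, w b < w p.1} ∩ chain l

/-- nested sets -/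
def Nested : List (ι × Finset ι) → Finset ι → Prop
  | [], _ => True
  | (p :: l), B => p.1 ∉ p.2 ∧ insert p.1 p.2 ⊆ B ∧ Nested l p.2

/-- the probability of a chain -/
def cst : List (ι × Finset ι) → ℝ
  | [] => 1
  | (p :: l) => 1 / ((p.2.card : ℝ) + 1) * cst l

theorem cst_nonneg (l : List (ι × Finset ι)) : 0 ≤ cst l := by
  induction l with
  | nil => simp [cst]
  | cons p l ih =>
    unfold cst
    positivity

theorem chain_update {l : List (ι × Finset ι)} {B : Finset ι} (hl : Nested l B) {a : ι}
    (ha : a ∉ B) (t : ℝ) (w : ι → ℝ) : Function.update w a t ∈ chain l ↔ w ∈ chain l := by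
  induction l generalizing B with
  | nil => simp [chain]
  | cons p l ih =>
    obtain ⟨h1, h2, h3⟩ := hl
    have hp : a ≠ p.1 := fun h => ha (h ▸ h2 (Finset.mem_insert_self _ _))
    have hB : ∀ b ∈ p.2, a ≠ b := fun b hb h => ha (h ▸ h2 (Finset.mem_insert_of_mem hb))
    have ha2 : a ∉ p.2 := fun h => hB a h rfl
    unfold chain
    rw [Set.mem_inter_iff, Set.mem_inter_iff, ih h3 ha2]
    apply and_congr_left
    intro _
    constructor
    · intro h b hb
      have := h b hb
      rwa [Function.update_of_ne hp.symm, Function.update_of_ne (hB b hb).symm] at this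
    · intro h b hb
      rw [Function.update_of_ne hp.symm, Function.update_of_ne (hB b hb).symm]
      exact h b hb

theorem measurableSet_chain (l : List (ι × Finset ι)) : MeasurableSet (chain l) := by
  induction l with
  | nil => exact MeasurableSet.univ
  | cons p l ih =>
    refine MeasurableSet.inter ?_ ih
    have : {w : ι → ℝ | ∀ b ∈ p.2, w b < w p.1} = ⋂ b ∈ p.2, {w : ι → ℝ | w b < w p.1} := by
      ext w
      simp
    rw [this]
    exact Finset.measurableSet_biInter _ fun b _ =>
      measurableSet_lt (measurable_pi_apply b) (measurable_pi_apply p.1)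

theorem measurableSet_below (I : Finset ι) (τ : ι → ℝ) :
    MeasurableSet {w : ι → ℝ | ∀ i ∈ I, w i < τ i} := by
  have : {w : ι → ℝ | ∀ i ∈ I, w i < τ i} = ⋂ i ∈ I, {w : ι → ℝ | w i < τ i} := by
    ext w
    simp
  rw [this]
  exact Finset.measurableSet_biInter _ fun i _ =>
    measurableSet_lt (measurable_pi_apply i) measurable_const

theorem unif_Iio {t : ℝ} (h0 : 0 ≤ t) (h1 : t ≤ 1) : unif (Set.Iio t) = ENNReal.ofReal t := by
  unfold unif
  rw [Measure.restrict_apply measurableSet_Iio]
  have : Set.Iio t ∩ Set.Icc 0 1 = Set.Ico 0 t := by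
    ext x
    simp only [Set.mem_inter_iff, Set.mem_Iio, Set.mem_Icc, Set.mem_Ico]
    constructor
    · rintro ⟨h2, h3, _⟩
      exact ⟨h3, h2⟩
    · rintro ⟨h2, h3⟩
      exact ⟨h3, h2, by linarith⟩
  rw [this, Real.volume_Ico, sub_zero]

theorem lint_pow {s K : ℝ} (h0 : 0 ≤ s) (h1 : s ≤ 1) (hK : 0 ≤ K) (k : ℕ) :
    ∫⁻ t, (if t < s then ENNReal.ofReal (t ^ k * K) else 0) ∂unif =
      ENNReal.ofReal (s ^ (k + 1) / (k + 1) * K) := by
  have e1 : ∫⁻ t, (if t < s then ENNReal.ofReal (t ^ k * K) else 0) ∂unif =
      ∫⁻ t in Set.Ico 0 s, ENNReal.ofReal (t ^ k * K) := by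
    rw [← lintegral_indicator measurableSet_Ico]
    unfold unif
    rw [← lintegral_indicator measurableSet_Icc]
    refine lintegral_congr fun t => ?_
    by_cases ht : t ∈ Set.Icc (0 : ℝ) 1
    · rw [Set.indicator_of_mem ht]
      by_cases hts : t < s
      · rw [if_pos hts, Set.indicator_of_mem (show t ∈ Set.Ico 0 s from ⟨ht.1, hts⟩)]
      · rw [if_neg hts, Set.indicator_of_notMem (fun h => hts h.2)]
    · rw [Set.indicator_of_notMem ht, Set.indicator_of_notMem]
      rintro ⟨h2, h3⟩
      exact ht ⟨h2, by linarith⟩
  rw [e1, setLIntegral_congr Ico_ae_eq_Ioc, ← ofReal_integral_eq_lintegral_ofReal]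
  · rw [← intervalIntegral.integral_of_le h0, intervalIntegral.integral_mul_const, integral_pow]
    congr 1
    simp
  · have : IntervalIntegrable (fun t : ℝ => t ^ k * K) volume 0 s :=
      (by fun_prop : Continuous fun t : ℝ => t ^ k * K).intervalIntegrable _ _
    exact this.1
  · filter_upwards [ae_restrict_mem measurableSet_Ioc] with t ht
    have := ht.1
    show (0 : ℝ) ≤ t ^ k * K
    positivity

/-- the probability of a nested chain of maxima together with upper bounds -/
theorem chain_prob (l : List (ι × Finset ι)) : ∀ (B : Finset ι), Nested l B →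
    ∀ (I : Finset ι) (τ : ι → ℝ) (s : ℝ), B ⊆ I → (∀ b ∈ B, τ b = s) →
      (∀ i, 0 ≤ τ i) → (∀ i, τ i ≤ 1) →
      Measure.pi (fun _ : ι => unif) ({w | ∀ i ∈ I, w i < τ i} ∩ chain l) =
        ENNReal.ofReal ((∏ i ∈ I, τ i) * cst l) := by
  induction l with
  | nil =>
    intro B _ I τ s _ _ h0 h1
    have e1 : ({w : ι → ℝ | ∀ i ∈ I, w i < τ i} ∩ chain []) =
        Set.univ.pi fun i => if i ∈ I then Set.Iio (τ i) else Set.univ := by
      ext w
      simp only [chain, Set.inter_univ, Set.mem_ofPred_eq, Set.mem_univ_pi]
      constructor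
      · intro h i
        by_cases hi : i ∈ I
        · rw [if_pos hi]
          exact h i hi
        · rw [if_neg hi]
          exact Set.mem_univ _
      · intro h i hi
        have := h i
        rw [if_pos hi] at this
        exact this
    rw [e1, Measure.pi_pi]
    have e2 : ∀ i, unif (if i ∈ I then Set.Iio (τ i) else Set.univ) =
        if i ∈ I then ENNReal.ofReal (τ i) else 1 := by
      intro i
      by_cases hi : i ∈ I
      · rw [if_pos hi, if_pos hi, unif_Iio (h0 i) (h1 i)]
      · rw [if_neg hi, if_neg hi, measure_univ]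
    simp_rw [e2]
    rw [Finset.prod_ite_mem, Finset.univ_inter, cst, mul_one,
      ENNReal.ofReal_prod_of_nonneg fun i _ => h0 i]
  | cons p l ih =>
    intro B hN I τ s hBI hτ h0 h1
    obtain ⟨hp1, hp2, hp3⟩ := hN
    set a := p.1 with ha
    set B' := p.2 with hB'
    have haB : a ∈ B := hp2 (Finset.mem_insert_self _ _)
    have haI : a ∈ I := hBI haB
    have hB'I : ∀ b ∈ B', b ∈ I := fun b hb => hBI (hp2 (Finset.mem_insert_of_mem hb))
    have hτa : τ a = s := hτ a haB
    have hs0 : 0 ≤ s := hτa ▸ h0 a
    have hs1 : s ≤ 1 := hτa ▸ h1 a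
    have hmeas : MeasurableSet ({w : ι → ℝ | ∀ i ∈ I, w i < τ i} ∩ chain (p :: l)) :=
      (measurableSet_below I τ).inter (measurableSet_chain _)
    rw [← lintegral_indicator_one hmeas, lint_update (measurable_one.indicator hmeas) a]
    set K : ℝ := (∏ i ∈ (I.erase a) \ B', τ i) * cst l with hK
    have hK0 : 0 ≤ K := mul_nonneg (Finset.prod_nonneg fun i _ => h0 i) (cst_nonneg l)
    have hinner : ∀ t ∈ Set.Icc (0 : ℝ) 1, ∫⁻ w, ({w : ι → ℝ | ∀ i ∈ I, w i < τ i} ∩
        chain (p :: l)).indicator 1 (Function.update w a t) ∂Measure.pi (fun _ : ι => unif) =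
        if t < s then ENNReal.ofReal (t ^ B'.card * K) else 0 := by
      intro t ht
      by_cases hts : t < s
      · rw [if_pos hts]
        set τ' : ι → ℝ := fun i => if i ∈ B' then t else τ i with hτ'
        have hih := ih B' hp3 (I.erase a) τ' t
          (fun b hb => Finset.mem_erase.mpr ⟨fun h => hp1 (h ▸ hb), hB'I b hb⟩)
          (fun b hb => by simp [hτ', hb])
          (fun i => by
            by_cases hi : i ∈ B'
            · simp [hτ', hi, ht.1]
            · simp [hτ', hi, h0 i])
          (fun i => by
            by_cases hi : i ∈ B'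
            · simp [hτ', hi, ht.2]
            · simp [hτ', hi, h1 i])
        have hset : ∀ w : ι → ℝ, ({w : ι → ℝ | ∀ i ∈ I, w i < τ i} ∩
            chain (p :: l)).indicator (1 : (ι → ℝ) → ℝ≥0∞) (Function.update w a t) =
            ({w : ι → ℝ | ∀ i ∈ I.erase a, w i < τ' i} ∩ chain l).indicator 1 w := by
          intro w
          have hiff : Function.update w a t ∈ ({w : ι → ℝ | ∀ i ∈ I, w i < τ i} ∩
              chain (p :: l)) ↔ w ∈ ({w : ι → ℝ | ∀ i ∈ I.erase a, w i < τ' i} ∩ chain l) := by
            constructor
            · rintro ⟨g1, g2, g3⟩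
              refine ⟨fun i hi => ?_, (chain_update hp3 hp1 t w).mp g3⟩
              have hia : i ≠ a := (Finset.mem_erase.mp hi).1
              by_cases hiB : i ∈ B'
              · have := g2 i hiB
                rw [Function.update_of_ne hia, ← ha, Function.update_self] at this
                simpa [hτ', hiB] using this
              · have := g1 i (Finset.mem_erase.mp hi).2
                rw [Function.update_of_ne hia] at this
                simpa [hτ', hiB] using this
            · rintro ⟨g1, g3⟩
              refine ⟨fun i hi => ?_, fun b hb => ?_, (chain_update hp3 hp1 t w).mpr g3⟩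
              · by_cases hia : i = a
                · rw [hia, Function.update_self, hτa]
                  exact hts
                · rw [Function.update_of_ne hia]
                  have := g1 i (Finset.mem_erase.mpr ⟨hia, hi⟩)
                  by_cases hiB : i ∈ B'
                  · have h5 : w i < t := by simpa [hτ', hiB] using this
                    have h6 : τ i = s := hτ i (hp2 (Finset.mem_insert_of_mem hiB))
                    linarith
                  · simpa [hτ', hiB] using this
              · have hba : b ≠ a := fun h => hp1 (h ▸ hb)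
                have := g1 b (Finset.mem_erase.mpr ⟨hba, hB'I b hb⟩)
                rw [← ha, Function.update_self, Function.update_of_ne hba]
                simpa [hτ', hB', hb] using this
          by_cases hw : w ∈ ({w : ι → ℝ | ∀ i ∈ I.erase a, w i < τ' i} ∩ chain l)
          · rw [Set.indicator_of_mem hw, Set.indicator_of_mem (hiff.mpr hw)]
            rfl
          · rw [Set.indicator_of_notMem hw, Set.indicator_of_notMem (fun h => hw (hiff.mp h))]
        simp_rw [hset]
        rw [lintegral_indicator_one ((measurableSet_below _ _).inter (measurableSet_chain _)), hih]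
        congr 1
        rw [hK, ← mul_assoc]
        congr 1
        have hsub : B' ⊆ I.erase a := fun b hb =>
          Finset.mem_erase.mpr ⟨fun h => hp1 (h ▸ hb), hB'I b hb⟩
        rw [← Finset.prod_sdiff hsub, mul_comm]
        congr 1
        · rw [Finset.prod_congr rfl (g := fun _ => t) fun b hb => by simp [hτ', hb],
            Finset.prod_const]
        · refine Finset.prod_congr rfl fun i hi => ?_
          have : i ∉ B' := (Finset.mem_sdiff.mp hi).2
          simp [hτ', this]
      · rw [if_neg hts]
        have : ∀ w : ι → ℝ, ({w : ι → ℝ | ∀ i ∈ I, w i < τ i} ∩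
            chain (p :: l)).indicator (1 : (ι → ℝ) → ℝ≥0∞) (Function.update w a t) = 0 := by
          intro w
          rw [Set.indicator_of_notMem]
          rintro ⟨g1, _⟩
          have := g1 a haI
          rw [Function.update_self, hτa] at this
          exact hts this
        simp_rw [this]
        simp
    have houter : ∫⁻ t, ∫⁻ w, ({w : ι → ℝ | ∀ i ∈ I, w i < τ i} ∩
        chain (p :: l)).indicator 1 (Function.update w a t) ∂Measure.pi (fun _ : ι => unif) ∂unif =
        ∫⁻ t, (if t < s then ENNReal.ofReal (t ^ B'.card * K) else 0) ∂unif := by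
      unfold unif
      refine setLIntegral_congr_fun measurableSet_Icc fun t ht => ?_
      exact hinner t ht
    rw [houter, lint_pow hs0 hs1 hK0]
    congr 1
    have hsub : insert a B' ⊆ I := fun i hi => hBI (hp2 hi)
    have e5 : ∏ i ∈ I, τ i = (∏ i ∈ (I.erase a) \ B', τ i) * s ^ (B'.card + 1) := by
      rw [← Finset.prod_sdiff hsub]
      congr 1
      · refine Finset.prod_congr ?_ fun _ _ => rfl
        ext i
        simp only [Finset.mem_sdiff, Finset.mem_insert, Finset.mem_erase]
        tauto
      · rw [Finset.prod_congr rfl (g := fun _ => s) fun i hi => hτ i (hp2 hi), Finset.prod_const,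
          Finset.card_insert_of_notMem hp1]
    rw [e5, cst, hK]
    ring

/-- the probability of a nested chain of maxima -/
theorem chain_prob_univ (l : List (ι × Finset ι)) (hl : Nested l Finset.univ) :
    Measure.pi (fun _ : ι => unif) (chain l) = ENNReal.ofReal (cst l) := by
  have h := chain_prob l Finset.univ hl Finset.univ (fun _ => 1) 1 le_rfl (fun _ _ => rfl)
    (fun _ => zero_le_one) (fun _ => le_rfl)
  rw [Finset.prod_const_one, one_mul] at h
  rw [← h]
  have hae : ∀ᵐ w ∂Measure.pi (fun _ : ι => unif), ∀ i : ι, w i < 1 := by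
    have h1 : Measure.pi (fun _ : ι => unif) (Set.univ.pi fun _ : ι => Set.Iio (1 : ℝ)) = 1 := by
      rw [Measure.pi_pi]
      simp [unif_Iio]
    have h2 : Measure.pi (fun _ : ι => unif) (Set.univ.pi fun _ : ι => Set.Iio (1 : ℝ))ᶜ = 0 := by
      rw [prob_compl_eq_zero_iff (MeasurableSet.univ_pi fun _ => measurableSet_Iio)]
      exact h1
    rw [ae_iff]
    refine measure_mono_null ?_ h2
    intro w hw hmem
    exact hw fun i => hmem i (Set.mem_univ i)
  apply measure_congr
  filter_upwards [hae] with w hw
  apply propext
  constructor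
  · intro hc
    exact ⟨fun i _ => hw i, hc⟩
  · intro hc
    exact hc.2

end

end Q295.Split
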