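import Pool.Agent.Q295.Split.Ladder

/-!
# The grid with two rows and four columns: finite checks
-/

set_option autoImplicit false

open SimpleGraph

namespace Q295.Split

/-- the spanning trees that are splittable -/
def splitL : List ℕ := [127, 191, 319, 367, 381, 431, 445, 487, 494, 501, 508, 575, 607, 623, 631,
  635, 637, 638, 687, 701, 734, 743, 750, 755, 757, 764, 847, 861, 862, 875, 883, 889, 911, 925,
  939, 953, 967, 974, 981, 988, 995, 1002, 1009, 1016]

/-- the spanning trees that are not splittable -/
def otherL : List ℕ := [247, 254, 375, 382, 671, 699, 727, 762, 799, 827, 855, 890]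

theorem check_tree : ((List.range 1024).all fun S =>
    if splitL.contains S || otherL.contains S then treeB S.testBit else notTreeB S.testBit) =
    true := by decide +kernel

theorem check_split : (splitL.all fun S => splitB S.testBit) = true := by decide +kernel

theorem check_other : (otherL.all fun S => notSplitB S.testBit) = true := by decide +kernel

theorem check_nodup : (splitL.Nodup ∧ otherL.Nodup) ∧ (∀ x ∈ splitL, x ∉ otherL) ∧
    (∀ x ∈ splitL, x < 1024) ∧ (∀ x ∈ otherL, x < 1024) := by decide +kernel

/-- the edge `i` lies on a cycle -/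
def nbB (p : ℕ → Bool) (i : ℕ) : Bool := p i && (reach (del p i) (ea i)).testBit (eb i)

/-- exchange property -/
def exchB (S i : ℕ) : Bool := (splitL ++ otherL).all fun T =>
  !(T &&& S == T) || (!(T.testBit i) || (List.range 10).any fun j =>
    S.testBit j && (!(T.testBit j) && (nbB S.testBit j && (j != i &&
      (splitL ++ otherL).contains ((T ^^^ 2 ^ i) ^^^ 2 ^ j)))))

/-- a tree contains no other spanning tree -/
def finB (S : ℕ) : Bool := (splitL ++ otherL).all fun T => !(T &&& S == T) || T == S

theorem check_exch0 : ((List.range 10).all fun i => exchB 1023 i) = true := by decide +kernel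

theorem check_exch1 : ((List.range 10).all fun i => (List.range 10).all fun j =>
    !(nbB (1023 ^^^ 2 ^ i).testBit j) || exchB (1023 ^^^ 2 ^ i) j) = true := by decide +kernel

/-- the remaining edges after the deletion of `i` -/
def S1 (i : ℕ) : ℕ := 1023 ^^^ 2 ^ i

/-- the remaining edges after the deletion of `i`, `j` -/
def S2 (i j : ℕ) : ℕ := S1 i ^^^ 2 ^ j

/-- the remaining edges after the deletion of `i`, `j`, `k` -/
def S3 (i j k : ℕ) : ℕ := S2 i j ^^^ 2 ^ k

/-- number of edges on cycles -/
def cnt (S : ℕ) : ℕ := (List.range 10).countP fun m => nbB S.testBit m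

/-- the deletions lead to a splittable tree -/
def good (t : Fin 10 × Fin 10 × Fin 10) : Bool :=
  nbB (S1 t.1).testBit t.2.1 && (nbB (S2 t.1 t.2.1).testBit t.2.2 &&
    splitL.contains (S3 t.1 t.2.1 t.2.2))

/-- the contribution, times `120960` -/
def val (t : Fin 10 × Fin 10 × Fin 10) : ℕ := 120960 / (10 * cnt (S1 t.1) * cnt (S2 t.1 t.2.1))

end Q295.Split
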