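import Pool.Agent.Q295.Split.Comp

/-!
# The grid with two rows and four columns: finite checks
-/

set_option autoImplicit false

open SimpleGraph

namespace Q295.Split

theorem check_exch2 : ((List.range 10).all fun i => (List.range 10).all fun j =>
    !(nbB (S1 i).testBit j) || (List.range 10).all fun k => !(nbB (S2 i j).testBit k) ||
      (exchB (S2 i j) k && finB (S3 i j k))) = true := by decide +kernel

theorem check_nest : ((List.range 10).all fun i => ((List.range 10).all fun m =>
      !(nbB (S1 i).testBit m) || m != i) && (List.range 10).all fun j =>
    !(nbB (S1 i).testBit j) || (List.range 10).all fun m => !(nbB (S2 i j).testBit m) ||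
      (nbB (S1 i).testBit m && m != j)) = true := by decide +kernel

end Q295.Split
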