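import Pool.Agent.Q295.Split.Comp

/-!
# The grid with two rows and four columns: finite checks
-/

set_option autoImplicit false

open SimpleGraph

namespace Q295.Split

theorem check_val : ((List.range 10).all fun i => (List.range 10).all fun j =>
    !(nbB (S1 i).testBit j) || (10 * cnt (S1 i) * cnt (S2 i j)) *
      (120960 / (10 * cnt (S1 i) * cnt (S2 i j))) == 120960) = true := by decide +kernel

theorem check_sum : (∑ t : Fin 10 × Fin 10 × Fin 10, if good t then val t else 0) = 95232 := by
  decide +kernel

end Q295.Split
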