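import Pool.Agent.Q295.Split.Chain

/-!
# Splittable spanning trees: definitions
-/

set_option autoImplicit false

open MeasureTheory SimpleGraph

namespace Q295.Split

noncomputable section

variable {V : Type*} [Fintype V]

/-- `T` is a spanning tree of `G` -/
def IsSpanningTree (G T : SimpleGraph V) : Prop := T ≤ G ∧ T.IsTree

/-- some edge of `T` has the property that deleting it leaves two components with half of the
vertices each -/
def Splittable (T : SimpleGraph V) : Prop :=
  ∃ u v : V, T.Adj u v ∧
    2 * {x | (T.deleteEdges {s(u, v)}).Reachable u x}.ncard = Fintype.card V ∧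
    2 * {x | (T.deleteEdges {s(u, v)}).Reachable v x}.ncard = Fintype.card V

/-- the probability that the uniform spanning tree of `G` is splittable -/
def pUST (G : SimpleGraph V) : ℝ :=
  ({T | IsSpanningTree G T ∧ Splittable T}.ncard : ℝ) / ({T | IsSpanningTree G T}.ncard : ℝ)

open Classical in
/-- the total weight of the edges of `T` -/
def weight (G : SimpleGraph V) (w : G.edgeSet → ℝ) (T : SimpleGraph V) : ℝ :=
  ∑ e : G.edgeSet, if (e : Sym2 V) ∈ T.edgeSet then w e else 0

/-- `T` is a spanning tree of `G` of minimum total weight -/
def IsMinimum (G : SimpleGraph V) (w : G.edgeSet → ℝ) (T : SimpleGraph V) : Prop :=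
  IsSpanningTree G T ∧ ∀ T', IsSpanningTree G T' → weight G w T ≤ weight G w T'

open Classical in
/-- the probability that the random minimum spanning tree of `G`, for independent weights that are
uniform on `[0,1]`, is splittable -/
def pMST (G : SimpleGraph V) : ℝ :=
  (Measure.pi (fun _ : G.edgeSet => (volume.restrict (Set.Icc (0 : ℝ) 1) : Measure ℝ))).real
    {w | ∃ T, IsMinimum G w T ∧ Splittable T}

end

end Q295.Split
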