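import Pool.Agent.Q295.Split.Defs

/-!
# The grid with two rows and four columns: computations
-/

set_option autoImplicit false

open SimpleGraph

namespace Q295.Split

/-- vertices of the grid with two rows and four columns -/
abbrev V4 := Fin 2 × Fin 4

/-- number of a vertex -/
def num (x : V4) : ℕ := 4 * x.1 + x.2

/-- vertex of a given number -/
def vx (n : ℕ) : V4 := (⟨n / 4 % 2, Nat.mod_lt _ (by norm_num)⟩, ⟨n % 4, Nat.mod_lt _ (by norm_num)⟩)

/-- first end of the edge `i` -/
def ea (i : ℕ) : ℕ := [0, 1, 2, 4, 5, 6, 0, 1, 2, 3].getD i 0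

/-- second end of the edge `i` -/
def eb (i : ℕ) : ℕ := [1, 2, 3, 5, 6, 7, 4, 5, 6, 7].getD i 0

theorem num_vx : ∀ n < 8, num (vx n) = n := by decide

theorem vx_num : ∀ x, vx (num x) = x := by decide

theorem num_lt : ∀ x, num x < 8 := by decide

theorem num_inj {x y : V4} (h : num x = num y) : x = y := by
  rw [← vx_num x, ← vx_num y, h]

theorem ea_lt : ∀ i < 10, ea i < 8 := by decide

theorem eb_lt : ∀ i < 10, eb i < 8 := by decide

theorem ea_ne_eb : ∀ i < 10, ea i ≠ eb i := by decide

theorem ends_inj : ∀ i < 10, ∀ j < 10,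
    (ea i = ea j ∧ eb i = eb j) ∨ (ea i = eb j ∧ eb i = ea j) → i = j := by decide

/-- `x`, `y` are the ends of the edge `i` -/
def Ends (i : ℕ) (x y : V4) : Prop :=
  (num x = ea i ∧ num y = eb i) ∨ (num x = eb i ∧ num y = ea i)

theorem Ends.symm {i : ℕ} {x y : V4} (h : Ends i x y) : Ends i y x := by
  rcases h with ⟨h1, h2⟩ | ⟨h1, h2⟩
  · exact Or.inr ⟨h2, h1⟩
  · exact Or.inl ⟨h2, h1⟩

theorem ends_vx {i : ℕ} (hi : i < 10) : Ends i (vx (ea i)) (vx (eb i)) :=
  Or.inl ⟨num_vx _ (ea_lt i hi), num_vx _ (eb_lt i hi)⟩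

theorem ends_unique {i j : ℕ} (hi : i < 10) (hj : j < 10) {x y : V4} (h1 : Ends i x y)
    (h2 : Ends j x y) : i = j := by
  apply ends_inj i hi j hj
  rcases h1 with ⟨a, b⟩ | ⟨a, b⟩ <;> rcases h2 with ⟨c, d⟩ | ⟨c, d⟩
  · exact Or.inl ⟨by omega, by omega⟩
  · exact Or.inr ⟨by omega, by omega⟩
  · exact Or.inr ⟨by omega, by omega⟩
  · exact Or.inl ⟨by omega, by omega⟩

theorem ends_same {i : ℕ} (hi : i < 10) {x y u v : V4} (h1 : Ends i x y) (h2 : Ends i u v) :
    (x = u ∧ y = v) ∨ (x = v ∧ y = u) := by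
  have hne := ea_ne_eb i hi
  rcases h1 with ⟨a, b⟩ | ⟨a, b⟩ <;> rcases h2 with ⟨c, d⟩ | ⟨c, d⟩
  · exact Or.inl ⟨num_inj (by omega), num_inj (by omega)⟩
  · exact Or.inr ⟨num_inj (by omega), num_inj (by omega)⟩
  · exact Or.inr ⟨num_inj (by omega), num_inj (by omega)⟩
  · exact Or.inl ⟨num_inj (by omega), num_inj (by omega)⟩

/-- the subgraph with the edges `i` such that `p i` -/
def HP (p : ℕ → Bool) : SimpleGraph V4 where
  Adj x y := ∃ i < 10, p i = true ∧ Ends i x y
  symm := ⟨fun _ _ ⟨i, hi, hp, h⟩ => ⟨i, hi, hp, h.symm⟩⟩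
  loopless := ⟨fun x ⟨i, hi, _, h⟩ => by
    have := ea_ne_eb i hi
    rcases h with ⟨a, b⟩ | ⟨a, b⟩ <;> omega⟩

/-- delete an edge -/
def del (p : ℕ → Bool) (i : ℕ) : ℕ → Bool := fun j => p j && (j != i)

theorem HP_del {p : ℕ → Bool} {i : ℕ} (hi : i < 10) {u v : V4} (h : Ends i u v) :
    (HP p).deleteEdges {s(u, v)} = HP (del p i) := by
  ext x y
  rw [SimpleGraph.deleteEdges_adj, Set.mem_singleton_iff, Sym2.eq_iff]
  constructor
  · rintro ⟨⟨j, hj, hpj, hxy⟩, hne⟩
    refine ⟨j, hj, ?_, hxy⟩
    have hji : j ≠ i := by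
      rintro rfl
      exact hne (ends_same hj hxy h)
    simp [del, hpj, hji]
  · rintro ⟨j, hj, hpj, hxy⟩
    simp only [del, Bool.and_eq_true, bne_iff_ne] at hpj
    refine ⟨⟨j, hj, hpj.1, hxy⟩, ?_⟩
    rintro (⟨rfl, rfl⟩ | ⟨rfl, rfl⟩)
    · exact hpj.2 (ends_unique hj hi hxy h)
    · exact hpj.2 (ends_unique hj hi hxy h.symm)

/-! ### Reachability -/

/-- add the ends of an edge -/
def addE (p : ℕ → Bool) (R i : ℕ) : ℕ :=
  if p i && (R.testBit (ea i) || R.testBit (eb i)) then (R ||| 2 ^ (ea i)) ||| 2 ^ (eb i) else R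

/-- one pass over all edges -/
def step (p : ℕ → Bool) (R : ℕ) : ℕ := (List.range 10).foldl (addE p) R

/-- the vertices that are reachable from a vertex -/
def reach (p : ℕ → Bool) (x : ℕ) : ℕ := step p (step p (step p (step p (2 ^ x))))

/-- all bits are reachable -/
def Snd (p : ℕ → Bool) (x : V4) (R : ℕ) : Prop :=
  ∀ y : V4, R.testBit (num y) = true → (HP p).Reachable x y

theorem snd_addE {p : ℕ → Bool} {x : V4} {R i : ℕ} (hi : i < 10) (h : Snd p x R) :
    Snd p x (addE p R i) := by
  unfold addE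
  split_ifs with hc
  · rw [Bool.and_eq_true, Bool.or_eq_true] at hc
    obtain ⟨hp, hab⟩ := hc
    have hadj : (HP p).Adj (vx (ea i)) (vx (eb i)) := ⟨i, hi, hp, ends_vx hi⟩
    have hboth : (HP p).Reachable x (vx (ea i)) ∧ (HP p).Reachable x (vx (eb i)) := by
      rcases hab with ha | hb
      · have h1 : (HP p).Reachable x (vx (ea i)) := h _ (by rw [num_vx _ (ea_lt i hi)]; exact ha)
        exact ⟨h1, h1.trans hadj.reachable⟩
      · have h1 : (HP p).Reachable x (vx (eb i)) := h _ (by rw [num_vx _ (eb_lt i hi)]; exact hb)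
        exact ⟨h1.trans hadj.symm.reachable, h1⟩
    intro y hy
    rw [Nat.testBit_or, Nat.testBit_or, Nat.testBit_two_pow, Nat.testBit_two_pow,
      Bool.or_eq_true, Bool.or_eq_true, decide_eq_true_eq, decide_eq_true_eq] at hy
    rcases hy with (hy | hy) | hy
    · exact h y hy
    · have : vx (ea i) = y := by rw [hy, vx_num]
      exact this ▸ hboth.1
    · have : vx (eb i) = y := by rw [hy, vx_num]
      exact this ▸ hboth.2
  · exact h

theorem snd_foldl {p : ℕ → Bool} {x : V4} (l : List ℕ) : ∀ R : ℕ, (∀ i ∈ l, i < 10) →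
    Snd p x R → Snd p x (l.foldl (addE p) R) := by
  induction l with
  | nil => intro R _ h; exact h
  | cons i l ih =>
    intro R hl h
    exact ih _ (fun j hj => hl j (List.mem_cons_of_mem _ hj))
      (snd_addE (hl i List.mem_cons_self) h)

theorem snd_step {p : ℕ → Bool} {x : V4} {R : ℕ} (h : Snd p x R) : Snd p x (step p R) :=
  snd_foldl _ R (fun _ hi => List.mem_range.mp hi) h

theorem snd_reach (p : ℕ → Bool) (x : V4) : Snd p x (reach p (num x)) := by
  refine snd_step (snd_step (snd_step (snd_step ?_)))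
  intro y hy
  rw [Nat.testBit_two_pow, decide_eq_true_eq] at hy
  rw [num_inj hy]

/-- the set of bits is closed and contains the starting vertex -/
def okB (p : ℕ → Bool) (x : ℕ) : Bool :=
  (reach p x).testBit x && (List.range 10).all fun i =>
    !(p i) || ((reach p x).testBit (ea i) == (reach p x).testBit (eb i))

theorem reach_iff {p : ℕ → Bool} {x : V4} (h : okB p (num x) = true) (y : V4) :
    (reach p (num x)).testBit (num y) = true ↔ (HP p).Reachable x y := by
  constructor
  · exact snd_reach p x y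
  · rintro ⟨w⟩
    unfold okB at h
    rw [Bool.and_eq_true, List.all_eq_true] at h
    obtain ⟨h1, h2⟩ := h
    have key : ∀ {u v : V4} (w : (HP p).Walk u v), (reach p (num x)).testBit (num u) = true →
        (reach p (num x)).testBit (num v) = true := by
      intro u v w
      induction w with
      | nil => exact id
      | cons hadj _ ih =>
        intro hu
        apply ih
        obtain ⟨i, hi, hpi, he⟩ := hadj
        have h3 := h2 i (List.mem_range.mpr hi)
        rw [hpi, Bool.not_true, Bool.false_or, beq_iff_eq] at h3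
        rcases he with ⟨a, b⟩ | ⟨a, b⟩
        · rw [b, ← h3, ← a]; exact hu
        · rw [b, h3, ← a]; exact hu
    exact key w h1

/-! ### Trees -/

/-- certificate for trees -/
def treeB (p : ℕ → Bool) : Bool :=
  (reach p 0 == 255) && (List.range 10).all fun i =>
    !(p i) || (okB (del p i) (ea i) && !((reach (del p i) (ea i)).testBit (eb i)))

/-- certificate for other graphs -/
def notTreeB (p : ℕ → Bool) : Bool :=
  (okB p 0 && (reach p 0 != 255)) || (List.range 10).any fun i =>
    p i && (reach (del p i) (ea i)).testBit (eb i)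

theorem bit255 : ∀ y : V4, (255 : ℕ).testBit (num y) = true := by decide

theorem isTree_of_treeB {p : ℕ → Bool} (h : treeB p = true) : (HP p).IsTree := by
  unfold treeB at h
  rw [Bool.and_eq_true, List.all_eq_true, beq_iff_eq] at h
  obtain ⟨h1, h2⟩ := h
  have hconn : ∀ y : V4, (HP p).Reachable (vx 0) y := by
    intro y
    apply snd_reach p (vx 0) y
    rw [num_vx 0 (by norm_num), h1]
    exact bit255 y
  refine ⟨(⟨fun x y => (hconn x).symm.trans (hconn y)⟩ : (HP p).Connected), ?_⟩
  rw [SimpleGraph.isAcyclic_iff_forall_isBridge]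
  intro e he
  induction e with
  | h u v =>
    rw [SimpleGraph.isBridge_iff]
    have hadj : (HP p).Adj u v := he
    obtain ⟨i, hi, hpi, hends⟩ := hadj
    rw [HP_del hi hends]
    have h3 := h2 i (List.mem_range.mpr hi)
    rw [hpi, Bool.not_true, Bool.false_or, Bool.and_eq_true, Bool.not_eq_true'] at h3
    intro hreach
    have h4 : ∀ u v : V4, num u = ea i → num v = eb i → ¬ (HP (del p i)).Reachable u v := by
      intro u v hu hv hr
      have h5 := (reach_iff (p := del p i) (x := u) (by rw [hu]; exact h3.1) v).mpr hr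
      rw [hu, hv, h3.2] at h5
      exact Bool.false_ne_true h5
    rcases hends with ⟨a, b⟩ | ⟨a, b⟩
    · exact h4 u v a b hreach
    · exact h4 v u b a hreach.symm

theorem not_isTree_of_notTreeB {p : ℕ → Bool} (h : notTreeB p = true) : ¬ (HP p).IsTree := by
  intro ht
  unfold notTreeB at h
  rw [Bool.or_eq_true, Bool.and_eq_true, List.any_eq_true, bne_iff_ne] at h
  rcases h with ⟨h1, h2⟩ | ⟨i, hi, h1⟩
  · apply h2
    have hall : ∀ y : V4, (reach p 0).testBit (num y) = true := by
      intro y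
      have := (reach_iff (p := p) (x := vx 0) (by rw [num_vx 0 (by norm_num)]; exact h1) y).mpr
        (ht.connected.preconnected _ _)
      rwa [num_vx 0 (by norm_num)] at this
    have hlt : reach p 0 < 256 := by
      have hbound : ∀ R i : ℕ, i < 10 → R < 256 → addE p R i < 256 := by
        intro R i hi hR
        unfold addE
        split_ifs
        · have h1 : 2 ^ ea i < 2 ^ 8 := Nat.pow_lt_pow_right (by norm_num) (ea_lt i hi)
          have h2 : 2 ^ eb i < 2 ^ 8 := Nat.pow_lt_pow_right (by norm_num) (eb_lt i hi)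
          exact Nat.or_lt_two_pow (n := 8) (Nat.or_lt_two_pow hR h1) h2
        · exact hR
      have hfold : ∀ (l : List ℕ) (R : ℕ), (∀ i ∈ l, i < 10) → R < 256 →
          l.foldl (addE p) R < 256 := by
        intro l
        induction l with
        | nil => intro R _ h; exact h
        | cons i l ih =>
          intro R hl hR
          exact ih _ (fun j hj => hl j (List.mem_cons_of_mem _ hj))
            (hbound R i (hl i List.mem_cons_self) hR)
      have hstep : ∀ R : ℕ, R < 256 → step p R < 256 := fun R hR =>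
        hfold _ R (fun _ hi => List.mem_range.mp hi) hR
      exact hstep _ (hstep _ (hstep _ (hstep _ (by norm_num))))
    apply Nat.eq_of_testBit_eq
    intro j
    by_cases hj : j < 8
    · have h3 := hall (vx j)
      have h4 := bit255 (vx j)
      rw [num_vx j hj] at h3 h4
      rw [h3, h4]
    · push Not at hj
      rw [Nat.testBit_eq_false_of_lt (lt_of_lt_of_le hlt
          (Nat.pow_le_pow_right (n := 2) (by norm_num) hj)),
        Nat.testBit_eq_false_of_lt (lt_of_lt_of_le (by norm_num : 255 < 2 ^ 8)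
          (Nat.pow_le_pow_right (n := 2) (by norm_num) hj))]
  · have hi' := List.mem_range.mp hi
    rw [Bool.and_eq_true] at h1
    have hac := SimpleGraph.isAcyclic_iff_forall_isBridge.mp ht.isAcyclic
    have hadj : (HP p).Adj (vx (ea i)) (vx (eb i)) := ⟨i, hi', h1.1, ends_vx hi'⟩
    have hb := hac (e := s(vx (ea i), vx (eb i))) hadj
    rw [SimpleGraph.isBridge_iff, HP_del hi' (ends_vx hi')] at hb
    apply hb
    apply snd_reach
    rw [num_vx _ (ea_lt i hi'), num_vx _ (eb_lt i hi')]
    exact h1.2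

/-- number of vertices in a set of bits -/
def popc (R : ℕ) : ℕ := (List.range 8).countP fun j => R.testBit j

/-- certificate for splittable trees -/
def splitB (p : ℕ → Bool) : Bool := (List.range 10).any fun i =>
  p i && (okB (del p i) (ea i) && (okB (del p i) (eb i) &&
    (popc (reach (del p i) (ea i)) == 4 && popc (reach (del p i) (eb i)) == 4)))

/-- certificate for trees that are not splittable -/
def notSplitB (p : ℕ → Bool) : Bool := (List.range 10).all fun i =>
  !(p i) || (okB (del p i) (ea i) && popc (reach (del p i) (ea i)) != 4)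

theorem ncard_bits (R : ℕ) : {y : V4 | R.testBit (num y) = true}.ncard = popc R := by
  classical
  have h1 : {y : V4 | R.testBit (num y) = true} =
      ((((List.range 8).filter fun j => R.testBit j).toFinset.image vx : Finset V4) : Set V4) := by
    ext y
    simp only [Set.mem_ofPred_eq, Finset.coe_image, Set.mem_image, Finset.mem_coe,
      List.mem_toFinset, List.mem_filter, List.mem_range]
    constructor
    · intro h
      exact ⟨num y, ⟨num_lt y, h⟩, vx_num y⟩
    · rintro ⟨j, ⟨hj, h⟩, rfl⟩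
      rw [num_vx j hj]
      exact h
  rw [h1, Set.ncard_coe_finset, Finset.card_image_of_injOn, List.toFinset_card_of_nodup, popc,
    List.countP_eq_length_filter]
  · exact List.nodup_range.filter _
  · intro a ha b hb hab
    simp only [Finset.mem_coe, List.mem_toFinset, List.mem_filter, List.mem_range] at ha hb
    rw [← num_vx a ha.1, ← num_vx b hb.1, hab]

theorem ncard_reach {p : ℕ → Bool} {x : V4} (h : okB p (num x) = true) :
    {y : V4 | (HP p).Reachable x y}.ncard = popc (reach p (num x)) := by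
  rw [← ncard_bits]
  congr 1
  ext y
  exact (reach_iff h y).symm

theorem splittable_of_splitB {p : ℕ → Bool} (h : splitB p = true) : Splittable (HP p) := by
  unfold splitB at h
  rw [List.any_eq_true] at h
  obtain ⟨i, hi, h1⟩ := h
  have hi' := List.mem_range.mp hi
  simp only [Bool.and_eq_true, beq_iff_eq] at h1
  obtain ⟨h1, h2, h3, h4, h5⟩ := h1
  refine ⟨vx (ea i), vx (eb i), ⟨i, hi', h1, ends_vx hi'⟩, ?_, ?_⟩
  · rw [HP_del hi' (ends_vx hi'), ncard_reach (by rw [num_vx _ (ea_lt i hi')]; exact h2),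
      num_vx _ (ea_lt i hi'), h4]
    decide
  · rw [HP_del hi' (ends_vx hi'), ncard_reach (by rw [num_vx _ (eb_lt i hi')]; exact h3),
      num_vx _ (eb_lt i hi'), h5]
    decide

theorem not_splittable_of_notSplitB {p : ℕ → Bool} (h : notSplitB p = true) :
    ¬ Splittable (HP p) := by
  rintro ⟨u, v, ⟨i, hi, hpi, he⟩, hu, hv⟩
  unfold notSplitB at h
  rw [List.all_eq_true] at h
  have h1 := h i (List.mem_range.mpr hi)
  rw [hpi, Bool.not_true, Bool.false_or, Bool.and_eq_true, bne_iff_ne] at h1
  have hcard : Fintype.card V4 = 8 := by decide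
  rw [HP_del hi he, hcard] at hu hv
  rcases he with ⟨a, b⟩ | ⟨a, b⟩
  · rw [ncard_reach (by rw [a]; exact h1.1), a] at hu
    omega
  · rw [ncard_reach (by rw [b]; exact h1.1), b] at hv
    omega

/-! ### The subgraphs of the grid -/

theorem grid_eq : (pathGraph 2 □ pathGraph 4 : SimpleGraph V4) = HP fun _ => true := by
  ext x y
  rw [SimpleGraph.boxProd_adj, SimpleGraph.pathGraph_adj, SimpleGraph.pathGraph_adj]
  have key : ∀ x y : V4, (((x.1.val + 1 = y.1.val ∨ y.1.val + 1 = x.1.val) ∧ x.2 = y.2) ∨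
      ((x.2.val + 1 = y.2.val ∨ y.2.val + 1 = x.2.val) ∧ x.1 = y.1)) ↔
      ∃ i < 10, true = true ∧ ((num x = ea i ∧ num y = eb i) ∨ (num x = eb i ∧ num y = ea i)) := by
    decide
  exact key x y

theorem HP_mono {p q : ℕ → Bool} (h : ∀ i < 10, p i = true → q i = true) : HP p ≤ HP q := by
  intro x y
  rintro ⟨i, hi, hp, he⟩
  exact ⟨i, hi, h i hi hp, he⟩

theorem HP_congr {p q : ℕ → Bool} (h : ∀ i < 10, p i = q i) : HP p = HP q :=
  le_antisymm (HP_mono fun i hi hp => h i hi ▸ hp) (HP_mono fun i hi hp => (h i hi).symm ▸ hp)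

theorem HP_adj_vx {p : ℕ → Bool} {i : ℕ} (hi : i < 10) :
    (HP p).Adj (vx (ea i)) (vx (eb i)) ↔ p i = true := by
  constructor
  · rintro ⟨j, hj, hp, he⟩
    rw [ends_unique hi hj (ends_vx hi) he]
    exact hp
  · intro h
    exact ⟨i, hi, h, ends_vx hi⟩

theorem exists_mask {T : SimpleGraph V4} (hT : T ≤ HP fun _ => true) :
    ∃ S < 1024, T = HP S.testBit := by
  classical
  refine ⟨Nat.ofBits fun i : Fin 10 => decide (T.Adj (vx (ea i)) (vx (eb i))),
    Nat.ofBits_lt_two_pow _, ?_⟩
  ext x y
  constructor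
  · intro h
    obtain ⟨i, hi, _, he⟩ := hT h
    refine ⟨i, hi, ?_, he⟩
    rw [Nat.testBit_ofBits_lt _ i hi, decide_eq_true_eq]
    rcases he with ⟨a, b⟩ | ⟨a, b⟩
    · rw [← a, ← b, vx_num, vx_num]
      exact h
    · rw [← a, ← b, vx_num, vx_num]
      exact h.symm
  · rintro ⟨i, hi, hp, he⟩
    rw [Nat.testBit_ofBits_lt _ i hi, decide_eq_true_eq] at hp
    rcases he with ⟨a, b⟩ | ⟨a, b⟩
    · have h1 : vx (ea i) = x := by rw [← a, vx_num]
      have h2 : vx (eb i) = y := by rw [← b, vx_num]
      change T.Adj (vx (ea i)) (vx (eb i)) at hp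
      rwa [h1, h2] at hp
    · have h1 : vx (ea i) = y := by rw [← b, vx_num]
      have h2 : vx (eb i) = x := by rw [← a, vx_num]
      change T.Adj (vx (ea i)) (vx (eb i)) at hp
      rw [h1, h2] at hp
      exact hp.symm

theorem HP_inj {S S' : ℕ} (hS : S < 1024) (hS' : S' < 1024) (h : HP S.testBit = HP S'.testBit) :
    S = S' := by
  apply Nat.eq_of_testBit_eq
  intro i
  by_cases hi : i < 10
  · have h1 := HP_adj_vx (p := S.testBit) hi
    have h2 := HP_adj_vx (p := S'.testBit) hi
    rw [h] at h1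
    have h3 : S.testBit i = true ↔ S'.testBit i = true := h1.symm.trans h2
    exact Bool.eq_iff_iff.mpr h3
  · push Not at hi
    have h10 : 1024 ≤ 2 ^ i := by
      calc 1024 = 2 ^ 10 := by norm_num
        _ ≤ 2 ^ i := Nat.pow_le_pow_right (by norm_num) hi
    rw [Nat.testBit_eq_false_of_lt (lt_of_lt_of_le hS h10),
      Nat.testBit_eq_false_of_lt (lt_of_lt_of_le hS' h10)]

end Q295.Split
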