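import Pool.Agent.Q295.Split.Comp2
import Pool.Agent.Q295.Split.Comp3

/-!
# The grid with two rows and four columns: the two probabilities
-/

set_option autoImplicit false

open SimpleGraph MeasureTheory

namespace Q295.Split

noncomputable section

theorem tree_of_mem {S : ℕ} (hS : S ∈ splitL ++ otherL) : S < 1024 ∧ (HP S.testBit).IsTree := by
  obtain ⟨_, _, h3, h4⟩ := check_nodup
  have hlt : S < 1024 := by
    rcases List.mem_append.mp hS with h | h
    · exact h3 S h
    · exact h4 S h
  refine ⟨hlt, isTree_of_treeB ?_⟩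
  have h := List.all_eq_true.mp check_tree S (List.mem_range.mpr hlt)
  have hc : (splitL.contains S || otherL.contains S) = true := by
    rw [Bool.or_eq_true, List.contains_iff_mem, List.contains_iff_mem]
    exact List.mem_append.mp hS
  rw [if_pos hc] at h
  exact h

theorem spanning_iff (T : SimpleGraph V4) : IsSpanningTree (HP fun _ => true) T ↔
    ∃ S ∈ splitL ++ otherL, T = HP S.testBit := by
  constructor
  · rintro ⟨hle, htree⟩
    obtain ⟨S, hS, rfl⟩ := exists_mask hle
    refine ⟨S, ?_, rfl⟩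
    by_contra hcon
    have h := List.all_eq_true.mp check_tree S (List.mem_range.mpr hS)
    have hc : ¬ (splitL.contains S || otherL.contains S) = true := by
      rw [Bool.or_eq_true, List.contains_iff_mem, List.contains_iff_mem]
      intro h2
      exact hcon (List.mem_append.mpr h2)
    rw [if_neg hc] at h
    exact not_isTree_of_notTreeB h htree
  · rintro ⟨S, hS, rfl⟩
    exact ⟨HP_mono fun _ _ _ => rfl, (tree_of_mem hS).2⟩

theorem spanning_split_iff (T : SimpleGraph V4) :
    (IsSpanningTree (HP fun _ => true) T ∧ Splittable T) ↔ ∃ S ∈ splitL, T = HP S.testBit := by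
  constructor
  · rintro ⟨h1, h2⟩
    obtain ⟨S, hS, rfl⟩ := (spanning_iff T).mp h1
    refine ⟨S, ?_, rfl⟩
    rcases List.mem_append.mp hS with h | h
    · exact h
    · exact absurd h2 (not_splittable_of_notSplitB (List.all_eq_true.mp check_other S h))
  · rintro ⟨S, hS, rfl⟩
    exact ⟨(spanning_iff _).mpr ⟨S, List.mem_append.mpr (Or.inl hS), rfl⟩,
      splittable_of_splitB (List.all_eq_true.mp check_split S hS)⟩

theorem ncard_image (L : List ℕ) (hL : L.Nodup) (hlt : ∀ x ∈ L, x < 1024) :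
    {T : SimpleGraph V4 | ∃ S ∈ L, T = HP S.testBit}.ncard = L.length := by
  classical
  have h1 : {T : SimpleGraph V4 | ∃ S ∈ L, T = HP S.testBit} =
      (fun S : ℕ => HP S.testBit) '' (L.toFinset : Set ℕ) := by
    ext T
    simp only [Set.mem_ofPred_eq, Set.mem_image, Finset.mem_coe, List.mem_toFinset]
    constructor
    · rintro ⟨S, hS, rfl⟩
      exact ⟨S, hS, rfl⟩
    · rintro ⟨S, hS, rfl⟩
      exact ⟨S, hS, rfl⟩
  rw [h1, Set.InjOn.ncard_image, Set.ncard_coe_finset, List.toFinset_card_of_nodup hL]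
  intro a ha b hb hab
  simp only [Finset.mem_coe, List.mem_toFinset] at ha hb
  exact HP_inj (hlt a ha) (hlt b hb) hab

theorem pUST_value : pUST (HP fun _ => true) = 11 / 14 := by
  obtain ⟨⟨h1, h2⟩, h3, h4, h5⟩ := check_nodup
  unfold pUST
  have e1 : {T | IsSpanningTree (HP fun _ => true) T ∧ Splittable T} =
      {T : SimpleGraph V4 | ∃ S ∈ splitL, T = HP S.testBit} := by
    ext T
    exact spanning_split_iff T
  have e2 : {T | IsSpanningTree (HP fun _ => true) T} =
      {T : SimpleGraph V4 | ∃ S ∈ splitL ++ otherL, T = HP S.testBit} := by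
    ext T
    exact spanning_iff T
  rw [e1, e2, ncard_image splitL h1 h4, ncard_image (splitL ++ otherL)
    (List.nodup_append.mpr ⟨h1, h2, fun a ha b hb hab => h3 a ha (hab ▸ hb)⟩)
    (fun x hx => (tree_of_mem hx).1)]
  have l1 : splitL.length = 44 := by decide
  have l2 : (splitL ++ otherL).length = 56 := by decide
  rw [l1, l2]
  norm_num

/-! ### Minimum spanning trees -/

/-- the weight in terms of bits -/
def wt (v : Fin 10 → ℝ) (T : ℕ) : ℝ := ∑ k : Fin 10, if T.testBit k then v k else 0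

theorem exch_step {S i : ℕ} (hi : i < 10) (h : exchB S i = true) (v : Fin 10 → ℝ)
    (hv : ∀ j : Fin 10, nbB S.testBit j = true → (j : ℕ) ≠ i → v j ≤ v ⟨i, hi⟩) {T : ℕ}
    (hT : T ∈ splitL ++ otherL) (hTS : T &&& S = T) :
    ∃ T' ∈ splitL ++ otherL, T' &&& (S ^^^ 2 ^ i) = T' ∧ wt v T' ≤ wt v T := by
  have hbit : ∀ k, T.testBit k = true → S.testBit k = true := by
    intro k hk
    have : (T &&& S).testBit k = true := by rw [hTS]; exact hk
    rw [Nat.testBit_and, Bool.and_eq_true] at this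
    exact this.2
  unfold exchB at h
  have h1 := List.all_eq_true.mp h T hT
  rw [Bool.or_eq_true, Bool.or_eq_true, Bool.not_eq_true', Bool.not_eq_true', beq_eq_false_iff_ne,
    List.any_eq_true] at h1
  rcases h1 with h1 | h1 | ⟨j, hj, h1⟩
  · exact absurd hTS h1
  · refine ⟨T, hT, ?_, le_rfl⟩
    apply Nat.eq_of_testBit_eq
    intro k
    rw [Nat.testBit_and, Nat.testBit_xor, Nat.testBit_two_pow]
    by_cases hk : T.testBit k = true
    · have hki : i ≠ k := by
        rintro rfl
        rw [h1] at hk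
        exact Bool.false_ne_true hk
      simp [hk, hbit k hk, hki]
    · rw [Bool.not_eq_true] at hk
      simp [hk]
  · have hj' := List.mem_range.mp hj
    simp only [Bool.and_eq_true, Bool.not_eq_true', bne_iff_ne, List.contains_iff_mem] at h1
    obtain ⟨hSj, hTj, hnb, hji, hmem⟩ := h1
    by_cases hTi : T.testBit i = true
    · refine ⟨_, hmem, ?_, ?_⟩
      · apply Nat.eq_of_testBit_eq
        intro k
        simp only [Nat.testBit_and, Nat.testBit_xor, Nat.testBit_two_pow]
        by_cases hkj : j = k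
        · subst hkj
          simp [hTj, hSj, hji.symm]
        · by_cases hki : i = k
          · subst hki
            simp [hTi, hbit i hTi, hkj]
          · by_cases hk : T.testBit k = true
            · simp [hk, hbit k hk, hki, hkj]
            · rw [Bool.not_eq_true] at hk
              simp [hk, hki, hkj]
      · have hvj := hv ⟨j, hj'⟩ hnb hji
        have hsum : wt v ((T ^^^ 2 ^ i) ^^^ 2 ^ j) = wt v T - v ⟨i, hi⟩ + v ⟨j, hj'⟩ := by
          unfold wt
          have e1 : v ⟨i, hi⟩ = ∑ k : Fin 10, if k = ⟨i, hi⟩ then v k else 0 := by simp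
          have e2 : v ⟨j, hj'⟩ = ∑ k : Fin 10, if k = ⟨j, hj'⟩ then v k else 0 := by simp
          rw [e1, e2, ← Finset.sum_sub_distrib, ← Finset.sum_add_distrib]
          refine Finset.sum_congr rfl fun k _ => ?_
          simp only [Nat.testBit_xor, Nat.testBit_two_pow]
          by_cases hkj : j = (k : ℕ)
          · have hk2 : k = ⟨j, hj'⟩ := Fin.ext hkj.symm
            have hk3 : ¬ k = ⟨i, hi⟩ := by
              intro h5
              rw [h5] at hkj
              exact hji hkj
            have hk4 : i ≠ j := hji.symm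
            subst hk2
            simp [hTj, hk4, hji]
          · have hk2 : ¬ k = ⟨j, hj'⟩ := fun h5 => hkj (by rw [h5])
            by_cases hki : i = (k : ℕ)
            · have hk3 : k = ⟨i, hi⟩ := Fin.ext hki.symm
              subst hk3
              simp [hTi, hji, hji.symm]
            · have hk3 : ¬ k = ⟨i, hi⟩ := fun h5 => hki (by rw [h5])
              simp [hki, hkj, hk2, hk3]
        rw [hsum]
        linarith
    · rw [Bool.not_eq_true] at hTi
      refine ⟨T, hT, ?_, le_rfl⟩
      apply Nat.eq_of_testBit_eq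
      intro k
      rw [Nat.testBit_and, Nat.testBit_xor, Nat.testBit_two_pow]
      by_cases hk : T.testBit k = true
      · have hki : i ≠ k := by
          rintro rfl
          rw [hTi] at hk
          exact Bool.false_ne_true hk
        simp [hk, hbit k hk, hki]
      · rw [Bool.not_eq_true] at hk
        simp [hk]

/-- the edges on cycles -/
def NB (S : ℕ) : Finset (Fin 10) := Finset.univ.filter fun m : Fin 10 => nbB S.testBit m = true

theorem card_NB (S : ℕ) : (NB S).card = cnt S := by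
  classical
  have h1 : (NB S).image Fin.val = ((List.range 10).filter fun m => nbB S.testBit m).toFinset := by
    ext m
    simp only [NB, Finset.mem_image, Finset.mem_filter, Finset.mem_univ, true_and,
      List.mem_toFinset, List.mem_filter, List.mem_range]
    constructor
    · rintro ⟨k, hk, rfl⟩
      exact ⟨k.2, hk⟩
    · rintro ⟨h1, h2⟩
      exact ⟨⟨m, h1⟩, h2, rfl⟩
  rw [← Finset.card_image_of_injective (NB S) Fin.val_injective, h1,
    List.toFinset_card_of_nodup (List.nodup_range.filter _), cnt, List.countP_eq_length_filter]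

/-- the chain of deletions -/
def lst (t : Fin 10 × Fin 10 × Fin 10) : List (Fin 10 × Finset (Fin 10)) :=
  [(t.1, Finset.univ.erase t.1), (t.2.1, (NB (S1 t.1)).erase t.2.1),
    (t.2.2, (NB (S2 t.1 t.2.1)).erase t.2.2)]

theorem good_iff {t : Fin 10 × Fin 10 × Fin 10} (h : good t = true) :
    nbB (S1 t.1).testBit t.2.1 = true ∧ nbB (S2 t.1 t.2.1).testBit t.2.2 = true ∧
      S3 t.1 t.2.1 t.2.2 ∈ splitL := by
  unfold good at h
  rw [Bool.and_eq_true, Bool.and_eq_true, List.contains_iff_mem] at h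
  exact h

theorem nest1 (i : Fin 10) {m : Fin 10} (hm : m ∈ NB (S1 i)) : m ≠ i := by
  have h := List.all_eq_true.mp check_nest i (List.mem_range.mpr i.2)
  rw [Bool.and_eq_true] at h
  have h1 := List.all_eq_true.mp h.1 m (List.mem_range.mpr m.2)
  have hm' : nbB (S1 i).testBit m = true := (Finset.mem_filter.mp hm).2
  rw [hm', Bool.not_true, Bool.false_or, bne_iff_ne] at h1
  exact fun h2 => h1 (by rw [h2])

theorem nest2 {i j : Fin 10} (hj : nbB (S1 i).testBit j = true) {m : Fin 10}
    (hm : m ∈ NB (S2 i j)) : m ∈ NB (S1 i) ∧ m ≠ j := by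
  have h := List.all_eq_true.mp check_nest i (List.mem_range.mpr i.2)
  rw [Bool.and_eq_true] at h
  have h1 := List.all_eq_true.mp h.2 j (List.mem_range.mpr j.2)
  rw [hj, Bool.not_true, Bool.false_or] at h1
  have h2 := List.all_eq_true.mp h1 m (List.mem_range.mpr m.2)
  have hm' : nbB (S2 i j).testBit m = true := (Finset.mem_filter.mp hm).2
  rw [hm', Bool.not_true, Bool.false_or, Bool.and_eq_true, bne_iff_ne] at h2
  exact ⟨Finset.mem_filter.mpr ⟨Finset.mem_univ _, h2.1⟩, fun h3 => h2.2 (by rw [h3])⟩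

theorem nested_lst {t : Fin 10 × Fin 10 × Fin 10} (h : good t = true) :
    Nested (lst t) Finset.univ := by
  obtain ⟨h1, h2, _⟩ := good_iff h
  refine ⟨Finset.notMem_erase _ _, Finset.subset_univ _, Finset.notMem_erase _ _, ?_,
    Finset.notMem_erase _ _, ?_, trivial⟩
  · show insert t.2.1 ((NB (S1 t.1)).erase t.2.1) ⊆ Finset.univ.erase t.1
    intro m hm
    rw [Finset.mem_erase]
    refine ⟨?_, Finset.mem_univ _⟩
    rcases Finset.mem_insert.mp hm with h3 | h3
    · exact nest1 t.1 (h3 ▸ Finset.mem_filter.mpr ⟨Finset.mem_univ _, h1⟩)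
    · exact nest1 t.1 (Finset.mem_erase.mp h3).2
  · show insert t.2.2 ((NB (S2 t.1 t.2.1)).erase t.2.2) ⊆ (NB (S1 t.1)).erase t.2.1
    intro m hm
    have hm2 : m ∈ NB (S2 t.1 t.2.1) := by
      rcases Finset.mem_insert.mp hm with h3 | h3
      · exact h3 ▸ Finset.mem_filter.mpr ⟨Finset.mem_univ _, h2⟩
      · exact (Finset.mem_erase.mp h3).2
    obtain ⟨g1, g2⟩ := nest2 h1 hm2
    exact Finset.mem_erase.mpr ⟨g2, g1⟩

theorem cst_lst {t : Fin 10 × Fin 10 × Fin 10} (h : good t = true) :
    cst (lst t) = (val t : ℝ) / 120960 := by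
  obtain ⟨h1, h2, _⟩ := good_iff h
  have c0 : (((Finset.univ : Finset (Fin 10)).erase t.1).card : ℝ) + 1 = 10 := by
    rw [Finset.card_erase_of_mem (Finset.mem_univ _), Finset.card_univ, Fintype.card_fin]
    norm_num
  have c1 : (((NB (S1 t.1)).erase t.2.1).card : ℝ) + 1 = cnt (S1 t.1) := by
    have := Finset.card_erase_add_one (s := NB (S1 t.1)) (a := t.2.1)
      (Finset.mem_filter.mpr ⟨Finset.mem_univ _, h1⟩)
    rw [card_NB] at this
    exact_mod_cast this
  have c2 : (((NB (S2 t.1 t.2.1)).erase t.2.2).card : ℝ) + 1 = cnt (S2 t.1 t.2.1) := by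
    have := Finset.card_erase_add_one (s := NB (S2 t.1 t.2.1)) (a := t.2.2)
      (Finset.mem_filter.mpr ⟨Finset.mem_univ _, h2⟩)
    rw [card_NB] at this
    exact_mod_cast this
  have hval : (10 * cnt (S1 t.1) * cnt (S2 t.1 t.2.1)) * val t = 120960 := by
    have h3 := List.all_eq_true.mp check_val t.1 (List.mem_range.mpr t.1.2)
    have h4 := List.all_eq_true.mp h3 t.2.1 (List.mem_range.mpr t.2.1.2)
    rw [h1, Bool.not_true, Bool.false_or, beq_iff_eq] at h4
    exact h4
  have hval' : (10 * (cnt (S1 t.1) : ℝ) * cnt (S2 t.1 t.2.1)) * val t = 120960 := by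
    exact_mod_cast hval
  show 1 / ((((Finset.univ : Finset (Fin 10)).erase t.1).card : ℝ) + 1) *
    (1 / ((((NB (S1 t.1)).erase t.2.1).card : ℝ) + 1) *
    (1 / ((((NB (S2 t.1 t.2.1)).erase t.2.2).card : ℝ) + 1) * 1)) = _
  rw [c0, c1, c2]
  have n1 : (cnt (S1 t.1) : ℝ) ≠ 0 := by
    intro h0
    rw [h0] at hval'
    norm_num at hval'
  have n2 : (cnt (S2 t.1 t.2.1) : ℝ) ≠ 0 := by
    intro h0
    rw [h0] at hval'
    norm_num at hval'
  rw [eq_div_iff (by norm_num), ← hval']
  field_simp

theorem disjoint_chain {t t' : Fin 10 × Fin 10 × Fin 10} (h : good t = true)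
    (h' : good t' = true) (hne : t ≠ t') : Disjoint (chain (lst t)) (chain (lst t')) := by
  obtain ⟨h1, h2, _⟩ := good_iff h
  obtain ⟨h1', h2', _⟩ := good_iff h'
  rw [Set.disjoint_left]
  rintro v ⟨a0, a1, a2, _⟩ ⟨b0, b1, b2, _⟩
  obtain ⟨i, j, k⟩ := t
  obtain ⟨i', j', k'⟩ := t'
  by_cases hi : i = i'
  · subst hi
    by_cases hj : j = j'
    · subst hj
      have hk : k ≠ k' := fun hk => hne (by rw [hk])
      have e1 := a2 k' (Finset.mem_erase.mpr ⟨hk.symm, Finset.mem_filter.mpr
        ⟨Finset.mem_univ _, h2'⟩⟩)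
      have e2 := b2 k (Finset.mem_erase.mpr ⟨hk, Finset.mem_filter.mpr ⟨Finset.mem_univ _, h2⟩⟩)
      exact lt_asymm e1 e2
    · have e1 := a1 j' (Finset.mem_erase.mpr ⟨Ne.symm hj, Finset.mem_filter.mpr
        ⟨Finset.mem_univ _, h1'⟩⟩)
      have e2 := b1 j (Finset.mem_erase.mpr ⟨hj, Finset.mem_filter.mpr ⟨Finset.mem_univ _, h1⟩⟩)
      exact lt_asymm e1 e2
  · have e1 := a0 i' (Finset.mem_erase.mpr ⟨Ne.symm hi, Finset.mem_univ _⟩)
    have e2 := b0 i (Finset.mem_erase.mpr ⟨hi, Finset.mem_univ _⟩)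
    exact lt_asymm e1 e2

/-- the good event -/
def goodSet : Finset (Fin 10 × Fin 10 × Fin 10) := Finset.univ.filter fun t => good t = true

theorem prob_good : Measure.pi (fun _ : Fin 10 => unif) (⋃ t ∈ goodSet, chain (lst t)) =
    ENNReal.ofReal (248 / 315) := by
  rw [measure_biUnion_finset]
  · have e1 : ∀ t ∈ goodSet, Measure.pi (fun _ : Fin 10 => unif) (chain (lst t)) =
        ENNReal.ofReal ((val t : ℝ) / 120960) := by
      intro t ht
      have hg := (Finset.mem_filter.mp ht).2
      rw [chain_prob_univ _ (nested_lst hg), cst_lst hg]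
    rw [Finset.sum_congr rfl e1, ← ENNReal.ofReal_sum_of_nonneg (fun t _ => by positivity),
      ← Finset.sum_div]
    have e2 : ∑ t ∈ goodSet, (val t : ℝ) = 95232 := by
      have := check_sum
      rw [← Finset.sum_filter] at this
      exact_mod_cast this
    rw [e2]
    norm_num
  · intro t ht t' ht' hne
    exact disjoint_chain (Finset.mem_filter.mp ht).2 (Finset.mem_filter.mp ht').2 hne
  · intro t _
    exact measurableSet_chain _

theorem good_min {t : Fin 10 × Fin 10 × Fin 10} (h : good t = true) {v : Fin 10 → ℝ}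
    (hv : v ∈ chain (lst t)) {T : ℕ} (hT : T ∈ splitL ++ otherL) :
    wt v (S3 t.1 t.2.1 t.2.2) ≤ wt v T := by
  obtain ⟨h1, h2, h3⟩ := good_iff h
  obtain ⟨a0, a1, a2, _⟩ := hv
  have hT0 : T &&& 1023 = T := by
    have := (tree_of_mem hT).1
    have h5 := Nat.and_two_pow_sub_one_eq_mod T 10
    norm_num at h5
    rw [h5]
    exact Nat.mod_eq_of_lt this
  obtain ⟨T1, m1, s1, w1⟩ := exch_step (S := 1023) (i := t.1) t.1.2
    (List.all_eq_true.mp check_exch0 t.1 (List.mem_range.mpr t.1.2)) v
    (fun j _ hj => (a0 j (Finset.mem_erase.mpr ⟨fun h5 => hj (by rw [h5]),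
      Finset.mem_univ _⟩)).le) hT hT0
  have g1 := List.all_eq_true.mp (List.all_eq_true.mp check_exch1 t.1 (List.mem_range.mpr t.1.2))
    t.2.1 (List.mem_range.mpr t.2.1.2)
  have h1' : nbB (1023 ^^^ 2 ^ (t.1 : ℕ)).testBit t.2.1 = true := h1
  rw [h1', Bool.not_true, Bool.false_or] at g1
  obtain ⟨T2, m2, s2, w2⟩ := exch_step (S := S1 t.1) (i := t.2.1) t.2.1.2 g1 v
    (fun j hnb hj => (a1 j (Finset.mem_erase.mpr ⟨fun h5 => hj (by rw [h5]),
      Finset.mem_filter.mpr ⟨Finset.mem_univ _, hnb⟩⟩)).le) m1 s1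
  have g2 := List.all_eq_true.mp (List.all_eq_true.mp check_exch2 t.1 (List.mem_range.mpr t.1.2))
    t.2.1 (List.mem_range.mpr t.2.1.2)
  rw [h1, Bool.not_true, Bool.false_or] at g2
  have g3 := List.all_eq_true.mp g2 t.2.2 (List.mem_range.mpr t.2.2.2)
  rw [h2, Bool.not_true, Bool.false_or, Bool.and_eq_true] at g3
  obtain ⟨T3, m3, s3, w3⟩ := exch_step (S := S2 t.1 t.2.1) (i := t.2.2) t.2.2.2 g3.1 v
    (fun j hnb hj => (a2 j (Finset.mem_erase.mpr ⟨fun h5 => hj (by rw [h5]),
      Finset.mem_filter.mpr ⟨Finset.mem_univ _, hnb⟩⟩)).le) m2 s2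
  have g4 := List.all_eq_true.mp g3.2 T3 m3
  have s3' : T3 &&& S3 t.1 t.2.1 t.2.2 = T3 := s3
  rw [s3', beq_self_eq_true, Bool.not_true, Bool.false_or, beq_iff_eq] at g4
  rw [← g4]
  linarith

/-- enumeration of the edges -/
def edgeFun (i : Fin 10) : (HP fun _ => true).edgeSet :=
  ⟨s(vx (ea i), vx (eb i)), (HP_adj_vx i.2).mpr rfl⟩

theorem edgeFun_bijective : Function.Bijective edgeFun := by
  constructor
  · intro i j h
    have h1 : s(vx (ea i), vx (eb i)) = s(vx (ea j), vx (eb j)) := congrArg Subtype.val h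
    rw [Sym2.eq_iff] at h1
    apply Fin.ext
    rcases h1 with ⟨a, b⟩ | ⟨a, b⟩
    · refine ends_unique i.2 j.2 (ends_vx i.2) ?_
      rw [a, b]
      exact ends_vx j.2
    · refine ends_unique i.2 j.2 (ends_vx i.2) ?_
      rw [a, b]
      exact (ends_vx j.2).symm
  · rintro ⟨e, he⟩
    induction e with
    | h x y =>
      obtain ⟨i, hi, _, hends⟩ : (HP fun _ => true).Adj x y := he
      refine ⟨⟨i, hi⟩, Subtype.ext ?_⟩
      show s(vx (ea i), vx (eb i)) = s(x, y)
      rw [Sym2.eq_iff]
      rcases hends with ⟨a, b⟩ | ⟨a, b⟩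
      · left
        rw [← a, ← b, vx_num, vx_num]
        exact ⟨rfl, rfl⟩
      · right
        rw [← a, ← b, vx_num, vx_num]
        exact ⟨rfl, rfl⟩

/-- enumeration of the edges -/
def eqv : Fin 10 ≃ (HP fun _ => true).edgeSet := Equiv.ofBijective edgeFun edgeFun_bijective

theorem weight_eq (v : Fin 10 → ℝ) (T : ℕ) :
    weight (HP fun _ => true) (MeasurableEquiv.piCongrLeft (fun _ => ℝ) eqv v) (HP T.testBit) =
      wt v T := by
  classical
  unfold weight wt
  rw [← eqv.sum_comp]
  refine Finset.sum_congr rfl fun k _ => ?_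
  have h1 : MeasurableEquiv.piCongrLeft (fun _ : (HP fun _ => true).edgeSet => ℝ) eqv v (eqv k) =
      v k := Equiv.piCongrLeft_apply_apply (fun _ : (HP fun _ => true).edgeSet => ℝ) eqv v k
  rw [h1]
  have h2 : ((eqv k : (HP fun _ => true).edgeSet) : Sym2 V4) ∈ (HP T.testBit).edgeSet ↔
      T.testBit k = true := HP_adj_vx k.2
  by_cases h3 : T.testBit k = true
  · rw [if_pos (h2.mpr h3), if_pos h3]
  · rw [if_neg (fun h4 => h3 (h2.mp h4)), if_neg h3]

theorem pMST_lower : 248 / 315 ≤ pMST (HP fun _ => true) := by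
  classical
  unfold pMST
  have hmp := measurePreserving_piCongrLeft (fun _ : (HP fun _ => true).edgeSet => unif) eqv
  have hsub : (⋃ t ∈ goodSet, chain (lst t)) ⊆
      (MeasurableEquiv.piCongrLeft (fun _ : (HP fun _ => true).edgeSet => ℝ) eqv) ⁻¹'
        {w | ∃ T, IsMinimum (HP fun _ => true) w T ∧ Splittable T} := by
    intro v hv
    rw [Set.mem_iUnion₂] at hv
    obtain ⟨t, ht, hv⟩ := hv
    have hg := (Finset.mem_filter.mp ht).2
    obtain ⟨_, _, h3⟩ := good_iff hg
    refine ⟨HP (S3 t.1 t.2.1 t.2.2).testBit, ⟨(spanning_iff _).mpr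
      ⟨_, List.mem_append.mpr (Or.inl h3), rfl⟩, ?_⟩, ?_⟩
    · intro T' hT'
      obtain ⟨S, hS, rfl⟩ := (spanning_iff T').mp hT'
      rw [weight_eq, weight_eq]
      exact good_min hg hv hS
    · exact splittable_of_splitB (List.all_eq_true.mp check_split _ h3)
  have h1 := measure_mono (μ := Measure.pi (fun _ : Fin 10 => unif)) hsub
  rw [prob_good, hmp.measure_preimage_equiv] at h1
  rw [Measure.real]
  have h2 := ENNReal.toReal_mono (measure_ne_top _ _) h1
  rw [ENNReal.toReal_ofReal (by norm_num)] at h2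
  exact h2

end

end Q295.Split
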